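import Mathlib

/-!
# James sequences in a space in which a nonreflexive space is finitely representable
-/

set_option autoImplicit false

noncomputable section

namespace Pool.Agent.MPb4da01

open NormedSpace

/-- `Y` is finitely representable in `X`. -/
def FinRep (Y X : Type*) [NormedAddCommGroup Y] [NormedSpace ℝ Y]
    [NormedAddCommGroup X] [NormedSpace ℝ X] : Prop :=
  ∀ E : Submodule ℝ Y, FiniteDimensional ℝ E → ∀ ε : ℝ, 0 < ε →
    ∃ T : E →ₗ[ℝ] X, ∀ e : E, (1 - ε) * ‖e‖ ≤ ‖T e‖ ∧ ‖T e‖ ≤ (1 + ε) * ‖e‖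

section Helly

variable {Y : Type*} [NormedAddCommGroup Y] [NormedSpace ℝ Y]

/-- Approximate form of the theorem of Helly. -/
lemma helly_approx (F : StrongDual ℝ (StrongDual ℝ Y)) (hF : ‖F‖ ≤ 1) (m : ℕ)
    (f : Fin m → StrongDual ℝ Y) {ε : ℝ} (hε : 0 < ε) :
    ∃ y : Y, ‖y‖ ≤ 1 ∧ ∀ i, |f i y - F (f i)| ≤ ε := by
  classical
  let A : Y →ₗ[ℝ] (Fin m → ℝ) := LinearMap.pi fun i => (f i : Y →ₗ[ℝ] ℝ)
  let C : Set (Fin m → ℝ) := closure (A '' Metric.closedBall 0 1)
  have hCconv : Convex ℝ C := ((convex_closedBall (0 : Y) 1).linear_image A).closure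
  have hCcl : IsClosed C := isClosed_closure
  let p : Fin m → ℝ := fun i => F (f i)
  have hp : p ∈ C := by
    by_contra hp
    obtain ⟨g, u, hg, hu⟩ := geometric_hahn_banach_closed_point hCconv hCcl hp
    let c : Fin m → ℝ := fun i => g (Pi.single i 1)
    have hgc : ∀ a : Fin m → ℝ, g a = ∑ i, c i * a i := by
      intro a
      conv_lhs => rw [← Finset.univ_sum_single a]
      rw [map_sum]
      refine Finset.sum_congr rfl fun i _ => ?_
      have : (Pi.single i (a i) : Fin m → ℝ) = a i • Pi.single i (1 : ℝ) := by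
        ext j
        by_cases hj : j = i
        · subst hj; simp
        · simp [hj]
      rw [this, map_smul, smul_eq_mul, mul_comm]
    let G : StrongDual ℝ Y := ∑ i, c i • f i
    have hGapp : ∀ y, G y = g (A y) := by
      intro y
      rw [hgc]
      simp [G, A]
    have hFG : F G = g p := by
      rw [hgc]
      simp [G, p]
    have hball : ∀ y : Y, ‖y‖ ≤ 1 → G y < u := by
      intro y hy
      rw [hGapp]
      exact hg _ (subset_closure ⟨y, by simpa using hy, rfl⟩)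
    have hu0 : 0 < u := by
      have := hball 0 (by simp)
      simpa using this
    have hGn : ‖G‖ ≤ u := by
      refine ContinuousLinearMap.opNorm_le_of_unit_norm hu0.le ?_
      intro y hy
      rw [Real.norm_eq_abs, abs_le]
      constructor
      · have := hball (-y) (by simp [hy])
        rw [map_neg] at this
        linarith
      · exact (hball y hy.le).le
    have h1 : F G ≤ ‖F‖ * ‖G‖ := (le_abs_self _).trans (F.le_opNorm G)
    have h2 : ‖F‖ * ‖G‖ ≤ 1 * u := mul_le_mul hF hGn (norm_nonneg _) zero_le_one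
    rw [hFG] at h1
    linarith
  rw [Metric.mem_closure_iff] at hp
  obtain ⟨b, ⟨y, hy, rfl⟩, hb⟩ := hp ε hε
  refine ⟨y, by simpa using hy, fun i => ?_⟩
  have h1 : dist (p i) (A y i) ≤ dist p (A y) := dist_le_pi_dist p (A y) i
  rw [Real.dist_eq] at h1
  have h2 : A y i = f i y := rfl
  rw [h2] at h1
  rw [abs_sub_comm]
  exact h1.trans hb.le

/-- If the functional `F` has distance at least `r` from the span of finitely many functionals, then
`F` is at least any given `s < r` at some point of the unit ball at which these vanish. -/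
lemma exists_annihilating_gen {D : Type*} [NormedAddCommGroup D] [NormedSpace ℝ D]
    (F : StrongDual ℝ D) {r s : ℝ} (hs : 0 ≤ s) (hsr : s < r) (m : ℕ)
    (L : Fin m → StrongDual ℝ D) (hF : ∀ c : Fin m → ℝ, r ≤ ‖F - ∑ i, c i • L i‖) :
    ∃ f : D, ‖f‖ ≤ 1 ∧ (∀ i, L i f = 0) ∧ s ≤ F f := by
  classical
  let V : Submodule ℝ D := ⨅ i, LinearMap.ker ((L i : D →ₗ[ℝ] ℝ))
  have hV : ∀ f : D, f ∈ V ↔ ∀ i, L i f = 0 := by
    intro f
    simp [V, Submodule.mem_iInf]
  let φ : StrongDual ℝ V := F.comp V.subtypeL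
  obtain ⟨G, hG1, hG2⟩ := exists_extension_norm_eq V φ
  have hker : V ≤ LinearMap.ker ((F - G : StrongDual ℝ D) : D →ₗ[ℝ] ℝ) := by
    intro f hf
    have := hG1 ⟨f, hf⟩
    simp only [φ, ContinuousLinearMap.comp_apply, Submodule.subtypeL_apply] at this
    simp [this]
  have hspan := mem_span_of_iInf_ker_le_ker (𝕜 := ℝ) hker
  rw [Submodule.mem_span_range_iff_exists_fun] at hspan
  obtain ⟨c, hc⟩ := hspan
  have hG : G = F - ∑ i, c i • L i := by
    ext f
    have := congrArg (fun L : D →ₗ[ℝ] ℝ => L f) hc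
    simp only [LinearMap.sum_apply, LinearMap.smul_apply, ContinuousLinearMap.coe_coe,
      smul_eq_mul, _root_.sub_apply] at this
    simp only [_root_.sub_apply, _root_.sum_apply,
      _root_.smul_apply, smul_eq_mul]
    linarith
  by_contra hcon
  push Not at hcon
  have hnorm : ‖φ‖ ≤ s := by
    refine ContinuousLinearMap.opNorm_le_of_unit_norm hs ?_
    intro f hf
    have hfn : ‖(f : D)‖ ≤ 1 := by
      have : ‖(f : D)‖ = ‖f‖ := rfl
      rw [this, hf]
    have h1 : F (f : D) < s := hcon _ hfn ((hV _).1 f.2)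
    have h2 : F (-(f : D)) < s := by
      refine hcon _ (by rw [norm_neg]; exact hfn) ?_
      intro i
      have := (hV _).1 f.2 i
      simp [this]
    rw [map_neg] at h2
    simp only [φ, ContinuousLinearMap.comp_apply, Submodule.subtypeL_apply, Real.norm_eq_abs]
    rw [abs_le]
    constructor <;> linarith
  have h3 := hF c
  rw [← hG, hG2] at h3
  linarith

/-- If `F` in the bidual has distance at least `r` from `Y`, then for every finite family there is a
functional of norm at most one vanishing on it on which `F` is at least any given `s < r`. -/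
lemma exists_annihilating (F : StrongDual ℝ (StrongDual ℝ Y)) {r s : ℝ} (hs : 0 ≤ s) (hsr : s < r)
    (hF : ∀ y : Y, r ≤ ‖F - inclusionInDoubleDual ℝ Y y‖) (m : ℕ) (y : Fin m → Y) :
    ∃ f : StrongDual ℝ Y, ‖f‖ ≤ 1 ∧ (∀ i, f (y i) = 0) ∧ s ≤ F f := by
  refine exists_annihilating_gen F hs hsr m (fun i => inclusionInDoubleDual ℝ Y (y i)) ?_
  intro c
  have h := hF (∑ i, c i • y i)
  rw [map_sum] at h
  simpa only [map_smul] using h

/-- Riesz lemma for the range of a linear isometry. -/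
lemma riesz_li {E G : Type*} [NormedAddCommGroup E] [NormedSpace ℝ E] [CompleteSpace E]
    [NormedAddCommGroup G] [NormedSpace ℝ G] (J : E →ₗᵢ[ℝ] G) (hJ : ¬ Function.Surjective J) :
    ∃ F : G, ‖F‖ = 1 ∧ ∀ y : E, (9 / 10 : ℝ) ≤ ‖F - J y‖ := by
  have hcl : IsClosed ((LinearMap.range J.toLinearMap : Submodule ℝ G) : Set G) := by
    have h := J.isometry.isClosedEmbedding.isClosed_range
    have h2 : ((LinearMap.range J.toLinearMap : Submodule ℝ G) : Set G) = Set.range J := by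
      ext z; rfl
    rw [h2]
    exact h
  have hne : ∃ x : G, x ∉ LinearMap.range J.toLinearMap := by
    by_contra h
    push Not at h
    apply hJ
    intro x
    obtain ⟨y, hy⟩ := h x
    exact ⟨y, hy⟩
  obtain ⟨F, -, hF1, hF2⟩ := riesz_lemma_of_lt_one hcl hne (r := 9 / 10) (by norm_num)
  refine ⟨F, hF1, fun y => ?_⟩
  have hy : J y ∈ LinearMap.range J.toLinearMap := LinearMap.mem_range_self J.toLinearMap y
  exact hF2 (J y) hy

/-- Riesz lemma for the range of an isometric linear map, unbundled. -/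
lemma riesz_fun {E G : Type*} [NormedAddCommGroup E] [NormedSpace ℝ E] [CompleteSpace E]
    [NormedAddCommGroup G] [NormedSpace ℝ G] (J : E → G) (h1 : ∀ x y, J (x + y) = J x + J y)
    (h2 : ∀ (c : ℝ) x, J (c • x) = c • J x) (hn : ∀ y, ‖J y‖ = ‖y‖)
    (hJ : ¬ Function.Surjective J) :
    ∃ F : G, ‖F‖ = 1 ∧ ∀ y : E, (9 / 10 : ℝ) ≤ ‖F - J y‖ :=
  riesz_li { toFun := J, map_add' := h1, map_smul' := h2, norm_map' := hn } hJ

variable [CompleteSpace Y]

/-- Riesz lemma in the bidual of a nonreflexive space. -/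
lemma exists_far_bidual (hY : ¬ Function.Surjective (inclusionInDoubleDual ℝ Y)) :
    ∃ F : StrongDual ℝ (StrongDual ℝ Y), ‖F‖ = 1 ∧
      ∀ y : Y, (9 / 10 : ℝ) ≤ ‖F - inclusionInDoubleDual ℝ Y y‖ := by
  have hn : ∀ y : Y, ‖inclusionInDoubleDual ℝ Y y‖ = ‖y‖ := fun y =>
    (inclusionInDoubleDualLi (E := Y) ℝ).norm_map y
  exact riesz_fun (G := StrongDual ℝ (StrongDual ℝ Y)) (fun y => inclusionInDoubleDual ℝ Y y)
    (fun x y => map_add _ x y) (fun c x => map_smul _ c x) hn hY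

/-- James sequences in the nonreflexive space. -/
lemma james_aux (hY : ¬ Function.Surjective (inclusionInDoubleDual ℝ Y)) (n : ℕ) :
    ∃ (y : ℕ → Y) (f : ℕ → StrongDual ℝ Y),
      (∀ i < n, ‖y i‖ ≤ 1) ∧ (∀ j < n, ‖f j‖ ≤ 1) ∧
      (∀ j < n, ∀ i < j, f j (y i) = 0) ∧
      (∀ j < n, ∀ i < n, j ≤ i → (5 / 8 : ℝ) ≤ f j (y i)) := by
  classical
  obtain ⟨F, hF1, hF2⟩ := exists_far_bidual hY
  suffices H : ∃ (y : ℕ → Y) (f : ℕ → StrongDual ℝ Y),
      (∀ i < n, ‖y i‖ ≤ 1) ∧ (∀ j < n, ‖f j‖ ≤ 1) ∧ (∀ j < n, (3 / 4 : ℝ) ≤ F (f j)) ∧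
      (∀ j < n, ∀ i < j, f j (y i) = 0) ∧
      (∀ j < n, ∀ i < n, j ≤ i → |f j (y i) - F (f j)| ≤ 1 / 8) by
    obtain ⟨y, f, h1, h2, h3, h4, h5⟩ := H
    refine ⟨y, f, h1, h2, h4, fun j hj i hi hji => ?_⟩
    have := (abs_le.1 (h5 j hj i hi hji)).1
    have := h3 j hj
    linarith
  induction n with
  | zero => exact ⟨fun _ => 0, fun _ => 0, by simp, by simp, by simp, by simp, by simp⟩
  | succ n ih =>
    obtain ⟨y, f, h1, h2, h3, h4, h5⟩ := ih
    obtain ⟨g, hg1, hg2, hg3⟩ := exists_annihilating F (r := 9 / 10) (s := 3 / 4)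
      (by norm_num) (by norm_num) hF2 n (fun i => y i)
    let f' : ℕ → StrongDual ℝ Y := fun j => if j < n then f j else g
    have hf'1 : ∀ j, j < n → f' j = f j := fun j hj => by simp [f', hj]
    have hf'2 : f' n = g := by simp [f']
    obtain ⟨z, hz1, hz2⟩ := helly_approx F hF1.le (n + 1) (fun i => f' i) (ε := 1 / 8) (by norm_num)
    let y' : ℕ → Y := fun i => if i < n then y i else z
    have hy'1 : ∀ j, j < n → y' j = y j := fun j hj => by simp [y', hj]
    have hy'2 : y' n = z := by simp [y']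
    refine ⟨y', f', ?_, ?_, ?_, ?_, ?_⟩
    · intro i hi
      rcases Nat.lt_succ_iff_lt_or_eq.1 hi with h | h
      · rw [hy'1 i h]; exact h1 i h
      · rw [h, hy'2]; exact hz1
    · intro i hi
      rcases Nat.lt_succ_iff_lt_or_eq.1 hi with h | h
      · rw [hf'1 i h]; exact h2 i h
      · rw [h, hf'2]; exact hg1
    · intro i hi
      rcases Nat.lt_succ_iff_lt_or_eq.1 hi with h | h
      · rw [hf'1 i h]; exact h3 i h
      · rw [h, hf'2]; exact hg3
    · intro j hj i hij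
      rcases Nat.lt_succ_iff_lt_or_eq.1 hj with h | h
      · rw [hf'1 j h, hy'1 i (hij.trans h)]; exact h4 j h i hij
      · subst h
        rw [hf'2, hy'1 i hij]
        exact hg2 ⟨i, hij⟩
    · intro j hj i hi hji
      rcases Nat.lt_succ_iff_lt_or_eq.1 hi with h | h
      · have hjn : j < n := lt_of_le_of_lt hji h
        rw [hf'1 j hjn, hy'1 i h]; exact h5 j hjn i h hji
      · subst h
        rw [hy'2]
        exact hz2 ⟨j, hj⟩

end Helly

section Transfer

variable {X : Type*} [NormedAddCommGroup X] [NormedSpace ℝ X]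
  {Y : Type*} [NormedAddCommGroup Y] [NormedSpace ℝ Y]

/-- Transfer of a functional along an almost isometry. -/
lemma transfer_functional {E : Submodule ℝ Y} (T : E →ₗ[ℝ] X) {δ : ℝ} (hδ1 : δ < 1)
    (hT : ∀ e : E, (1 - δ) * ‖e‖ ≤ ‖T e‖) (f : StrongDual ℝ Y) (hf : ‖f‖ ≤ 1) :
    ∃ g : X →L[ℝ] ℝ, ‖g‖ ≤ 1 ∧ ∀ e : E, g (T e) = (1 - δ) * f e := by
  have hpos : 0 < 1 - δ := by linarith
  have hinj : Function.Injective T := by
    rw [injective_iff_map_eq_zero]
    intro e he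
    have := hT e
    rw [he, norm_zero] at this
    have h2 : ‖e‖ ≤ 0 := by
      by_contra h
      push Not at h
      have := mul_pos hpos h
      linarith
    exact norm_le_zero_iff.1 h2
  let S : E ≃ₗ[ℝ] LinearMap.range T := LinearEquiv.ofInjective T hinj
  let φ : LinearMap.range T →ₗ[ℝ] ℝ :=
    (1 - δ) • ((f : Y →ₗ[ℝ] ℝ).comp (E.subtype.comp S.symm.toLinearMap))
  have hφ : ∀ v : LinearMap.range T, ‖φ v‖ ≤ 1 * ‖v‖ := by
    intro v
    obtain ⟨e, rfl⟩ := S.surjective v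
    have h1 : φ (S e) = (1 - δ) * f (e : Y) := by simp [φ]
    have h2 : ‖S e‖ = ‖T e‖ := rfl
    rw [h1, h2, one_mul, norm_mul, Real.norm_of_nonneg hpos.le]
    refine le_trans ?_ (hT e)
    refine mul_le_mul_of_nonneg_left ?_ hpos.le
    have := f.le_opNorm (e : Y)
    refine this.trans ?_
    calc ‖f‖ * ‖(e : Y)‖ ≤ 1 * ‖(e : Y)‖ := mul_le_mul_of_nonneg_right hf (norm_nonneg _)
      _ = ‖e‖ := by rw [one_mul]; rfl
  let ψ : StrongDual ℝ (LinearMap.range T) := φ.mkContinuous 1 hφ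
  obtain ⟨g, hg1, hg2⟩ := exists_extension_norm_eq (LinearMap.range T) ψ
  refine ⟨g, ?_, ?_⟩
  · rw [hg2]
    exact LinearMap.mkContinuous_norm_le _ zero_le_one _
  · intro e
    have := hg1 (S e)
    have h3 : ((S e : LinearMap.range T) : X) = T e := rfl
    rw [h3] at this
    rw [this]
    simp [ψ, φ]

variable [CompleteSpace Y]

/-- James sequences in `X` when a nonreflexive space is finitely representable in `X`. -/
theorem james_seq (hfr : FinRep Y X)
    (hY : ¬ Function.Surjective (inclusionInDoubleDual ℝ Y)) (n : ℕ) :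
    ∃ x : ℕ → X, (∀ i < n, ‖x i‖ ≤ 1) ∧
      ∀ j : ℕ, ∃ f : X →L[ℝ] ℝ, ‖f‖ ≤ 1 ∧
        (∀ i, j ≤ i → i < n → (1 / 2 : ℝ) ≤ f (x i)) ∧
        (∀ i, i < j → i < n → f (x i) = 0) := by
  classical
  obtain ⟨y, f, h1, h2, h3, h4⟩ := james_aux hY n
  let E : Submodule ℝ Y := Submodule.span ℝ ((Finset.range n).image y : Set Y)
  have hfin : FiniteDimensional ℝ E := FiniteDimensional.span_finset ℝ _
  obtain ⟨T, hT⟩ := hfr E hfin (1 / 10) (by norm_num)
  have hyE : ∀ i, i < n → y i ∈ E := by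
    intro i hi
    apply Submodule.subset_span
    simp only [Finset.coe_image, Set.mem_image, Finset.coe_range, Set.mem_Iio]
    exact ⟨i, hi, rfl⟩
  let e : ℕ → E := fun i => if h : i < n then ⟨y i, hyE i h⟩ else 0
  have he : ∀ i, i < n → (e i : Y) = y i := by
    intro i hi
    simp [e, hi]
  refine ⟨fun i => (10 / 11 : ℝ) • T (e i), ?_, ?_⟩
  · intro i hi
    rw [norm_smul, Real.norm_of_nonneg (by norm_num)]
    have h5 := (hT (e i)).2
    have h6 : ‖e i‖ ≤ 1 := by
      have : ‖e i‖ = ‖(e i : Y)‖ := rfl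
      rw [this, he i hi]
      exact h1 i hi
    nlinarith
  · intro j
    by_cases hj : j < n
    · obtain ⟨g, hg1, hg2⟩ := transfer_functional T (δ := 1 / 10) (by norm_num)
        (fun e => (hT e).1) (f j) (h2 j hj)
      refine ⟨g, hg1, ?_, ?_⟩
      · intro i hji hi
        rw [map_smul, hg2, he i hi, smul_eq_mul]
        have := h4 j hj i hi hji
        linarith
      · intro i hij hi
        rw [map_smul, hg2, he i hi, h3 j hj i hij]
        simp
    · refine ⟨0, by simp, ?_, ?_⟩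
      · intro i hji hi
        omega
      · intro i _ _
        simp

/-- James sequences on which finitely many given functionals are almost constant. -/
theorem james_far (hfr : FinRep Y X)
    (hY : ¬ Function.Surjective (inclusionInDoubleDual ℝ Y)) (n : ℕ) {ε : ℝ} (hε : 0 < ε)
    (Ψ : Finset (X →L[ℝ] ℝ)) :
    ∃ x : ℕ → X, (∀ i < n, ‖x i‖ ≤ 1) ∧
      (∀ j : ℕ, ∃ f : X →L[ℝ] ℝ, ‖f‖ ≤ 1 ∧
        (∀ i, j ≤ i → i < n → (1 / 2 : ℝ) ≤ f (x i)) ∧
        (∀ i, i < j → i < n → f (x i) = 0)) ∧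
      ∀ ψ ∈ Ψ, ∀ i < n, ∀ i' < n, |ψ (x i) - ψ (x i')| ≤ ε := by
  classical
  obtain ⟨R, hR⟩ : ∃ R : ℝ, ∀ ψ ∈ Ψ, ‖ψ‖ ≤ R :=
    ⟨∑ ψ ∈ Ψ, ‖ψ‖, fun ψ hψ => Finset.single_le_sum (f := fun ψ => ‖ψ‖)
      (fun _ _ => norm_nonneg _) hψ⟩
  let K : ℤ := ⌈R / ε⌉ + 1
  let B : Finset ({ψ // ψ ∈ Ψ} → ℤ) := Fintype.piFinset fun _ => Finset.Icc (-K) K
  let N : ℕ := B.card * n
  obtain ⟨x, hx1, hx2⟩ := james_seq hfr hY N
  let b : ℕ → ({ψ // ψ ∈ Ψ} → ℤ) := fun i ψ => ⌊ψ.1 (x i) / ε⌋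
  have hval : ∀ i < N, ∀ ψ ∈ Ψ, |ψ (x i)| ≤ R := by
    intro i hi ψ hψ
    have h1 := ψ.le_opNorm (x i)
    rw [Real.norm_eq_abs] at h1
    have h2 := hx1 i hi
    have h3 := hR ψ hψ
    have h4 : ‖ψ‖ * ‖x i‖ ≤ ‖ψ‖ * 1 := mul_le_mul_of_nonneg_left h2 (norm_nonneg _)
    linarith
  have hmaps : ∀ i ∈ Finset.range N, b i ∈ B := by
    intro i hi
    rw [Finset.mem_range] at hi
    simp only [B, Fintype.mem_piFinset, Finset.mem_Icc]
    intro ψ
    have h1 := hval i hi ψ.1 ψ.2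
    rw [abs_le] at h1
    have h2 : -(R / ε) ≤ ψ.1 (x i) / ε := by
      rw [← neg_div]; exact div_le_div_of_nonneg_right h1.1 hε.le
    have h3 : ψ.1 (x i) / ε ≤ R / ε := div_le_div_of_nonneg_right h1.2 hε.le
    have h4 : R / ε ≤ ⌈R / ε⌉ := Int.le_ceil _
    constructor
    · simp only [b, K]
      rw [Int.le_floor]
      push_cast
      linarith
    · simp only [b, K]
      have : ⌊ψ.1 (x i) / ε⌋ ≤ ⌊((⌈R / ε⌉ : ℤ) : ℝ)⌋ := Int.floor_le_floor (h3.trans h4)
      rw [Int.floor_intCast] at this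
      linarith
  have hBne : B.Nonempty := by
    refine ⟨fun _ => 0, ?_⟩
    simp only [B, Fintype.mem_piFinset, Finset.mem_Icc]
    intro ψ
    have hR0 : 0 ≤ R := (norm_nonneg _).trans (hR ψ.1 ψ.2)
    have : 0 ≤ ⌈R / ε⌉ := Int.ceil_nonneg (div_nonneg hR0 hε.le)
    simp only [K]
    constructor <;> linarith
  obtain ⟨v, -, hv⟩ := Finset.exists_le_card_fiber_of_mul_le_card_of_maps_to (n := n) hmaps hBne
    (by simp [N])
  obtain ⟨s, hs1, hs2⟩ := Finset.exists_subset_card_eq hv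
  let k : Fin n ↪o ℕ := s.orderEmbOfFin hs2
  have hk : ∀ i, k i ∈ s := fun i => s.orderEmbOfFin_mem hs2 i
  have hk1 : ∀ i, k i < N := by
    intro i
    have := hs1 (hk i)
    rw [Finset.mem_filter, Finset.mem_range] at this
    exact this.1
  have hk2 : ∀ i, b (k i) = v := by
    intro i
    have := hs1 (hk i)
    rw [Finset.mem_filter] at this
    exact this.2
  let κ : ℕ → ℕ := fun i => if h : i < n then k ⟨i, h⟩ else N
  have hκ : ∀ i (h : i < n), κ i = k ⟨i, h⟩ := fun i h => by simp [κ, h]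
  refine ⟨fun i => x (κ i), ?_, ?_, ?_⟩
  · intro i hi
    show ‖x (κ i)‖ ≤ 1
    rw [hκ i hi]
    exact hx1 _ (hk1 _)
  · intro j
    by_cases hj : j < n
    · obtain ⟨f, hf1, hf2, hf3⟩ := hx2 (κ j)
      refine ⟨f, hf1, ?_, ?_⟩
      · intro i hji hi
        refine hf2 _ ?_ ?_
        · rw [hκ i hi, hκ j hj]
          exact k.monotone hji
        · rw [hκ i hi]
          exact hk1 _
      · intro i hij hi
        refine hf3 _ ?_ ?_
        · rw [hκ i hi, hκ j hj]
          exact k.strictMono hij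
        · rw [hκ i hi]
          exact hk1 _
    · refine ⟨0, by simp, ?_, ?_⟩
      · intro i hji hi
        omega
      · intro i _ _
        simp
  · intro ψ hψ i hi i' hi'
    show |ψ (x (κ i)) - ψ (x (κ i'))| ≤ ε
    rw [hκ i hi, hκ i' hi']
    have h1 : ⌊ψ (x (k ⟨i, hi⟩)) / ε⌋ = ⌊ψ (x (k ⟨i', hi'⟩)) / ε⌋ := by
      have h2 := congrFun ((hk2 ⟨i, hi⟩).trans (hk2 ⟨i', hi'⟩).symm) ⟨ψ, hψ⟩
      exact h2
    have h3 := Int.abs_sub_lt_one_of_floor_eq_floor h1
    rw [← sub_div, abs_div, abs_of_pos hε, div_lt_one hε] at h3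
    exact h3.le

end Transfer

end Pool.Agent.MPb4da01
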