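import Mathlib
import Pool.Agent.Helper85.TG.James

/-!
# Dyadic trees built from James sequences
-/

set_option autoImplicit false

noncomputable section

namespace Pool.Agent.MPb4da01

open NormedSpace

/-- number of vectors used by a tree with `r` levels -/
def treeLen : ℕ → ℕ
  | 0 => 0
  | r + 1 => 2 * treeLen r + 2

/-- the first free index after `k` steps along `θ` -/
def treeStart (N : ℕ) (θ : ℕ → Bool) : ℕ → ℕ
  | 0 => 0
  | k + 1 => if θ k then treeStart N θ k + 1 else treeStart N θ k + treeLen (N - (k + 1)) + 2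

lemma treeStart_congr (N : ℕ) (θ θ' : ℕ → Bool) (k : ℕ) (h : ∀ i < k, θ i = θ' i) :
    treeStart N θ k = treeStart N θ' k := by
  induction k with
  | zero => rfl
  | succ k ih =>
    have h1 := ih fun i hi => h i (by omega)
    simp only [treeStart]
    rw [h1, h k (by omega)]

lemma treeLen_sub (N k : ℕ) (hk : k < N) :
    treeLen (N - k) = 2 * treeLen (N - (k + 1)) + 2 := by
  have : N - k = (N - (k + 1)) + 1 := by omega
  rw [this, treeLen]

lemma treeStart_step (N : ℕ) (θ : ℕ → Bool) (k : ℕ) (hk : k < N) :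
    treeStart N θ k ≤ treeStart N θ (k + 1) ∧
    treeStart N θ (k + 1) + treeLen (N - (k + 1)) ≤ treeStart N θ k + treeLen (N - k) := by
  have h := treeLen_sub N k hk
  simp only [treeStart]
  split_ifs <;> constructor <;> omega

lemma treeStart_mono (N : ℕ) (θ : ℕ → Bool) (k m : ℕ) (hkm : k ≤ m) (hm : m ≤ N) :
    treeStart N θ k ≤ treeStart N θ m ∧
    treeStart N θ m + treeLen (N - m) ≤ treeStart N θ k + treeLen (N - k) := by
  induction m, hkm using Nat.le_induction with
  | base => exact ⟨le_rfl, le_rfl⟩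
  | succ m hkm ih =>
    have h1 := ih (by omega)
    have h2 := treeStart_step N θ m (by omega)
    exact ⟨h1.1.trans h2.1, h2.2.trans h1.2⟩

/-- the second index used at step `k` -/
def treeB (N : ℕ) (θ : ℕ → Bool) (k : ℕ) : ℕ := treeStart N θ k + treeLen (N - (k + 1)) + 1

lemma treeB_lt (N : ℕ) (θ : ℕ → Bool) (k : ℕ) (hk : k < N) : treeB N θ k < treeLen N := by
  have h1 := (treeStart_mono N θ 0 k (Nat.zero_le _) hk.le).2
  have h2 := treeLen_sub N k hk
  simp only [treeStart, Nat.sub_zero] at h1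
  unfold treeB
  omega

lemma treeStart_lt (N : ℕ) (θ : ℕ → Bool) (k : ℕ) (hk : k < N) :
    treeStart N θ k < treeLen N := by
  have := treeB_lt N θ k hk
  unfold treeB at this
  omega

lemma tree_plus (N : ℕ) (θ : ℕ → Bool) (k : ℕ) (hk : k < N) (hθ : θ k = true) :
    treeStart N θ k < treeStart N θ N ∧ treeStart N θ N ≤ treeB N θ k := by
  have h1 := treeStart_mono N θ (k + 1) N (by omega) le_rfl
  have h2 : treeStart N θ (k + 1) = treeStart N θ k + 1 := by simp [treeStart, hθ]
  unfold treeB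
  simp only [Nat.sub_self] at h1
  have h3 : treeLen 0 = 0 := rfl
  omega

lemma tree_minus (N : ℕ) (θ : ℕ → Bool) (k : ℕ) (hk : k < N) (hθ : θ k = false) :
    treeStart N θ k < treeStart N θ N ∧ treeB N θ k < treeStart N θ N := by
  have h1 := treeStart_mono N θ (k + 1) N (by omega) le_rfl
  have h2 : treeStart N θ (k + 1) = treeStart N θ k + treeLen (N - (k + 1)) + 2 := by
    simp [treeStart, hθ]
  unfold treeB
  omega

/-- sign of a bit -/
def bsgn (b : Bool) : ℝ := if b then 1 else -1

lemma abs_bsgn (b : Bool) : |bsgn b| = 1 := by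
  cases b <;> simp [bsgn]

lemma bsgn_not (b : Bool) : bsgn (!b) = - bsgn b := by
  cases b <;> simp [bsgn]

section

variable {X : Type*} [NormedAddCommGroup X] [NormedSpace ℝ X]

/-- the position after `k` steps of the walk with increments `d` -/
def walk (d : ℕ → (ℕ → Bool) → X) (k : ℕ) (θ : ℕ → Bool) : X :=
  ∑ i ∈ Finset.range k, bsgn (θ i) • d i θ

lemma walk_zero (d : ℕ → (ℕ → Bool) → X) (θ : ℕ → Bool) : walk d 0 θ = 0 := by
  simp [walk]

lemma walk_succ (d : ℕ → (ℕ → Bool) → X) (k : ℕ) (θ : ℕ → Bool) :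
    walk d (k + 1) θ = walk d k θ + bsgn (θ k) • d k θ := by
  simp [walk, Finset.sum_range_succ]

variable {Y : Type*} [NormedAddCommGroup Y] [NormedSpace ℝ Y] [CompleteSpace Y]

/-- Dyadic trees with small increments, final values large on average, on which finitely many given
functionals are small. -/
theorem james_tree (hfr : FinRep Y X)
    (hY : ¬ Function.Surjective (inclusionInDoubleDual ℝ Y)) (N : ℕ) (hN : 0 < N)
    {ε : ℝ} (hε : 0 < ε) (Ψ : Finset (X →L[ℝ] ℝ)) :
    ∃ d : ℕ → (ℕ → Bool) → X,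
      (∀ k θ θ', (∀ i < k, θ i = θ' i) → d k θ = d k θ') ∧
      (∀ k < N, ∀ θ, ‖d k θ‖ ≤ 1 / N) ∧
      (∀ k ≤ N, ∀ θ, ∀ ψ ∈ Ψ, |ψ (walk d k θ)| ≤ ε) ∧
      (∀ θ, (((Finset.range N).filter fun i => θ i = true).card : ℝ) / (4 * N) ≤
        ‖walk d N θ‖) := by
  classical
  obtain ⟨x, hx1, hx2, hx3⟩ := james_far hfr hY (treeLen N) hε Ψ
  have hNpos : (0 : ℝ) < N := by exact_mod_cast hN
  have hc : (0 : ℝ) ≤ 1 / (2 * N) := by positivity
  refine ⟨fun k θ => (1 / (2 * N) : ℝ) • (x (treeB N θ k) - x (treeStart N θ k)), ?_, ?_, ?_, ?_⟩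
  · intro k θ θ' h
    have := treeStart_congr N θ θ' k h
    simp only [treeB, this]
  · intro k hk θ
    rw [norm_smul, Real.norm_of_nonneg hc]
    have h1 := hx1 _ (treeB_lt N θ k hk)
    have h2 := hx1 _ (treeStart_lt N θ k hk)
    have h3 := norm_sub_le (x (treeB N θ k)) (x (treeStart N θ k))
    have h4 : ‖x (treeB N θ k) - x (treeStart N θ k)‖ ≤ 2 := by linarith
    calc 1 / (2 * N) * ‖x (treeB N θ k) - x (treeStart N θ k)‖ ≤ 1 / (2 * N) * 2 :=
          mul_le_mul_of_nonneg_left h4 hc
      _ = 1 / N := by field_simp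
  · intro k hk θ ψ hψ
    unfold walk
    rw [map_sum]
    refine (Finset.abs_sum_le_sum_abs _ _).trans ?_
    have h1 : ∀ i ∈ Finset.range k, |ψ (bsgn (θ i) • (1 / (2 * N) : ℝ) •
        (x (treeB N θ i) - x (treeStart N θ i)))| ≤ 1 / (2 * N) * ε := by
      intro i hi
      rw [Finset.mem_range] at hi
      rw [map_smul, map_smul, smul_eq_mul, smul_eq_mul, abs_mul, abs_bsgn, one_mul, abs_mul,
        abs_of_nonneg hc, map_sub]
      exact mul_le_mul_of_nonneg_left (hx3 ψ hψ _ (treeB_lt N θ i (by omega)) _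
        (treeStart_lt N θ i (by omega))) hc
    refine (Finset.sum_le_sum h1).trans ?_
    rw [Finset.sum_const, Finset.card_range, nsmul_eq_mul]
    have h2 : (k : ℝ) ≤ N := by exact_mod_cast hk
    calc (k : ℝ) * (1 / (2 * N) * ε) ≤ N * (1 / (2 * N) * ε) :=
          mul_le_mul_of_nonneg_right h2 (by positivity)
      _ = ε / 2 := by field_simp
      _ ≤ ε := by linarith
  · intro θ
    obtain ⟨f, hf1, hf2, hf3⟩ := hx2 (treeStart N θ N)
    have h1 : ∀ i ∈ Finset.range N, (if θ i = true then (1 : ℝ) / (4 * (N : ℝ)) else (0 : ℝ)) ≤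
        f (bsgn (θ i) • (1 / (2 * N) : ℝ) • (x (treeB N θ i) - x (treeStart N θ i))) := by
      intro i hi
      rw [Finset.mem_range] at hi
      rw [map_smul, map_smul, smul_eq_mul, smul_eq_mul, map_sub]
      by_cases hθ : θ i = true
      · obtain ⟨h2, h3⟩ := tree_plus N θ i hi hθ
        have h4 := hf2 _ h3 (treeB_lt N θ i hi)
        have h5 := hf3 _ h2 (treeStart_lt N θ i hi)
        rw [if_pos hθ, h5, hθ]
        simp only [bsgn, if_true, one_mul, sub_zero]
        calc (1 : ℝ) / (4 * N) = 1 / (2 * N) * (1 / 2) := by ring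
          _ ≤ 1 / (2 * N) * f (x (treeB N θ i)) := mul_le_mul_of_nonneg_left h4 hc
      · have hθ' : θ i = false := by simpa using hθ
        obtain ⟨h2, h3⟩ := tree_minus N θ i hi hθ'
        have h4 := hf3 _ h3 (treeB_lt N θ i hi)
        have h5 := hf3 _ h2 (treeStart_lt N θ i hi)
        rw [if_neg hθ, h4, h5]
        simp
    have h2 := Finset.sum_le_sum h1
    rw [← map_sum, ← Finset.sum_filter, Finset.sum_const, nsmul_eq_mul] at h2
    have h3 : f (walk (fun k θ => (1 / (2 * N) : ℝ) •
        (x (treeB N θ k) - x (treeStart N θ k))) N θ) ≤ ‖walk (fun k θ => (1 / (2 * N) : ℝ) •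
        (x (treeB N θ k) - x (treeStart N θ k))) N θ‖ := by
      refine (le_abs_self _).trans ((f.le_opNorm _).trans ?_)
      calc _ ≤ 1 * _ := mul_le_mul_of_nonneg_right hf1 (norm_nonneg _)
        _ = _ := one_mul _
    refine le_trans ?_ h3
    refine le_trans (le_of_eq ?_) h2
    ring

/-- average number of positive bits -/
lemma sum_card_true (N : ℕ) (e : (Fin N → Bool) → ℕ → Bool)
    (he : ∀ θ (i : Fin N), e θ i = θ i) :
    ∑ θ : Fin N → Bool, (((Finset.range N).filter fun i => e θ i = true).card : ℝ) =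
      2 ^ N * (N / 2) := by
  classical
  have h0 : ∀ θ : Fin N → Bool, (((Finset.range N).filter fun i => e θ i = true).card : ℝ) =
      ∑ i : Fin N, if θ i = true then (1 : ℝ) else 0 := by
    intro θ
    rw [Finset.card_filter]
    push_cast
    rw [Finset.sum_range]
    refine Finset.sum_congr rfl fun i _ => ?_
    rw [he]
  have h1 : ∑ θ : Fin N → Bool, ∑ i : Fin N, (if θ i = true then (1 : ℝ) else 0) =
      ∑ θ : Fin N → Bool, ∑ i : Fin N, (if θ i = true then (0 : ℝ) else 1) := by
    let E : (Fin N → Bool) ≃ (Fin N → Bool) :=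
      { toFun := fun θ i => !(θ i)
        invFun := fun θ i => !(θ i)
        left_inv := fun θ => by ext i; simp
        right_inv := fun θ => by ext i; simp }
    refine Fintype.sum_equiv E _ _ fun θ => Finset.sum_congr rfl fun i _ => ?_
    have : E θ i = !(θ i) := rfl
    rw [this]
    cases θ i <;> simp
  have h2 : ∑ θ : Fin N → Bool, ∑ i : Fin N, (if θ i = true then (1 : ℝ) else 0) +
      ∑ θ : Fin N → Bool, ∑ i : Fin N, (if θ i = true then (0 : ℝ) else 1) = 2 ^ N * N := by
    rw [← Finset.sum_add_distrib]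
    have : ∀ θ : Fin N → Bool, (∑ i : Fin N, (if θ i = true then (1 : ℝ) else 0) +
        ∑ i : Fin N, (if θ i = true then (0 : ℝ) else 1)) = N := by
      intro θ
      rw [← Finset.sum_add_distrib]
      have : ∀ i ∈ (Finset.univ : Finset (Fin N)), ((if θ i = true then (1 : ℝ) else 0) +
          (if θ i = true then (0 : ℝ) else 1)) = 1 := by
        intro i _
        split_ifs <;> simp
      rw [Finset.sum_congr rfl this]
      simp
    rw [Finset.sum_congr rfl fun θ _ => this θ]
    simp
  rw [Finset.sum_congr rfl fun θ _ => h0 θ]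
  linarith

end

end Pool.Agent.MPb4da01
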